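import Mathlib
import Pool.Agent.Results.MP_4cad9a_co.SchemesFail

/-!
# Chromatic `k`-schemes fail for every large `k`

The starting file `MP_4cad9a_co.SchemesFail` gives one number `p` and one `p`-chromatic graph none
of whose subgraphs has a chromatic `p`-scheme.  Joining a new vertex to everything keeps the
property and raises the chromatic number by one, so the statement fails for all `k ≥ p`.
-/

set_option autoImplicit false

namespace Pool.Agent.Results.MP_ae60c6_co.AllLargeK

/-- `HasScheme H k`: the graph `H` has a chromatic `k`-scheme, i.e. a proper `k`-colouring `f`,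
vertices `x i` with `f (x i) = i`, and for all `i < j` a path of `H` from `x i` to `x j` all of
whose vertices have colour `i` or `j` (so the colours alternate, `f` being proper). -/
def HasScheme {W : Type} (H : SimpleGraph W) (k : ℕ) : Prop :=
  ∃ (f : H.Coloring (Fin k)) (x : Fin k → W), (∀ i, f (x i) = i) ∧
    ∀ i j : Fin k, i < j → ∃ P : H.Walk (x i) (x j), P.IsPath ∧
      ∀ w ∈ P.support, f w = i ∨ f w = j

/-- No subgraph of `G` has a chromatic `k`-scheme. -/
def NoScheme {V : Type} (G : SimpleGraph V) (k : ℕ) : Prop :=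
  ∀ G' : G.Subgraph, ¬ HasScheme G'.coe k

/-- the cone over `G` -/
def cone {V : Type} (G : SimpleGraph V) : SimpleGraph (Option V) where
  Adj a b := match a, b with
    | none, none => False
    | none, some _ => True
    | some _, none => True
    | some u, some v => G.Adj u v
  symm := ⟨by
    rintro (_ | u) (_ | v) h
    · exact h
    · trivial
    · trivial
    · exact SimpleGraph.Adj.symm (G := G) h⟩
  loopless := ⟨by
    rintro (_ | u) h
    · exact h
    · exact G.irrefl h⟩

lemma cone_colorable {V : Type} (G : SimpleGraph V) {n : ℕ} (h : G.Colorable n) :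
    (cone G).Colorable (n + 1) := by
  obtain ⟨c⟩ := h
  refine ⟨SimpleGraph.Coloring.mk (fun a => match a with
    | none => Fin.last n
    | some v => (c v).castSucc) ?_⟩
  rintro (_ | u) (_ | v) h
  · exact h.elim
  · exact (Fin.castSucc_lt_last (c v)).ne'
  · exact (Fin.castSucc_lt_last (c u)).ne
  · intro he
    exact c.valid (show G.Adj u v from h) (Fin.castSucc_injective _ he)

lemma colorable_of_cone {V : Type} (G : SimpleGraph V) {n : ℕ} (h : (cone G).Colorable (n + 1)) :
    G.Colorable n := by
  obtain ⟨c⟩ := h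
  have hne : ∀ v : V, c (some v) ≠ c none := fun v =>
    c.valid (show (cone G).Adj (some v) none from trivial)
  choose g hg using fun v : V => Fin.exists_succAbove_eq (hne v)
  refine ⟨SimpleGraph.Coloring.mk g ?_⟩
  intro u v huv he
  exact c.valid (show (cone G).Adj (some u) (some v) from huv) (by rw [← hg u, ← hg v, he])

lemma chromatic_cone {V : Type} [Fintype V] (G : SimpleGraph V) {n : ℕ}
    (h : G.chromaticNumber = n) : (cone G).chromaticNumber = (n + 1 : ℕ) := by
  classical
  apply le_antisymm
  · exact SimpleGraph.chromaticNumber_le_iff_colorable.2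
      (cone_colorable G (SimpleGraph.chromaticNumber_le_iff_colorable.1 h.le))
  · by_contra hlt
    rw [not_le] at hlt
    rcases n with _ | n
    · have h0 : (cone G).Colorable 0 := by
        refine SimpleGraph.chromaticNumber_le_iff_colorable.1 ?_
        have : (cone G).chromaticNumber < 1 := by simpa using hlt
        have := Order.lt_one_iff.1 this
        rw [this]; simp
      obtain ⟨c⟩ := h0
      exact Fin.elim0 (c none)
    · have h1 : (cone G).chromaticNumber ≤ (n + 1 : ℕ) := by
        have : (cone G).chromaticNumber < ((n + 1 : ℕ) : ℕ∞) + 1 := by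
          push_cast at hlt ⊢
          exact hlt
        exact Order.le_of_lt_add_one this
      have h2 := colorable_of_cone G (SimpleGraph.chromaticNumber_le_iff_colorable.1 h1)
      have h3 := SimpleGraph.chromaticNumber_le_iff_colorable.2 h2
      rw [h] at h3
      have : n + 1 ≤ n := by exact_mod_cast h3
      omega

lemma noScheme_cone {V : Type} (G : SimpleGraph V) {k : ℕ} (hG : NoScheme G k) :
    NoScheme (cone G) (k + 1) := by
  classical
  rintro G' ⟨f, x, hx, hP⟩
  -- a colour which every non-`some` vertex of `G'` has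
  obtain ⟨c, hc⟩ : ∃ c : Fin (k + 1), ∀ h : none ∈ G'.verts, f ⟨none, h⟩ = c := by
    by_cases h : none ∈ G'.verts
    · exact ⟨f ⟨none, h⟩, fun _ => rfl⟩
    · exact ⟨0, fun h' => absurd h' h⟩
  -- the subgraph of `G` given by the remaining vertices
  let G'' : G.Subgraph :=
    { verts := {v | ∃ h : some v ∈ G'.verts, f ⟨some v, h⟩ ≠ c}
      Adj := fun u v => G'.Adj (some u) (some v) ∧
        (∃ h : some u ∈ G'.verts, f ⟨some u, h⟩ ≠ c) ∧ (∃ h : some v ∈ G'.verts, f ⟨some v, h⟩ ≠ c)
      adj_sub := fun h => G'.adj_sub h.1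
      edge_vert := fun h => h.2.1
      symm := ⟨fun u v h => ⟨SimpleGraph.Subgraph.Adj.symm h.1, h.2.2, h.2.1⟩⟩ }
  refine hG G'' ?_
  -- the vertices of `G'` whose colour is not `c`
  let S : Set G'.verts := {w | f w ≠ c}
  have hsome : ∀ w : G'.verts, w ∈ S → ∃ v : V, (w : Option V) = some v := by
    rintro ⟨_ | v, hw⟩ hwS
    · exact absurd (hc hw) hwS
    · exact ⟨v, rfl⟩
  choose φ hφ using fun w : S => hsome w.1 w.2
  have hφmem : ∀ w : S, φ w ∈ G''.verts := by
    intro w
    have h1 := hφ w
    have h2 : some (φ w) ∈ G'.verts := h1 ▸ w.1.2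
    refine ⟨h2, ?_⟩
    have : (⟨some (φ w), h2⟩ : G'.verts) = w.1 := Subtype.ext h1.symm
    rw [this]; exact w.2
  let ψ : (G'.coe.induce S) →g G''.coe :=
    { toFun := fun w => ⟨φ w, hφmem w⟩
      map_rel' := by
        intro a b hab
        have hab' : G'.Adj (a.1 : Option V) (b.1 : Option V) := hab
        show G'.Adj (some (φ a)) (some (φ b)) ∧ _ ∧ _
        refine ⟨?_, hφmem a, hφmem b⟩
        rw [← hφ a, ← hφ b]; exact hab' }
  have hψinj : Function.Injective ψ := by
    intro a b hab
    have h1 : φ a = φ b := congrArg Subtype.val hab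
    apply Subtype.ext
    apply Subtype.ext
    rw [hφ a, hφ b, h1]
  -- the new colouring
  have hcol : ∀ v : G''.verts, ∃ i : Fin k, c.succAbove i = f ⟨some v.1, v.2.choose⟩ := by
    intro v
    exact Fin.exists_succAbove_eq v.2.choose_spec
  choose g hg using hcol
  have hgφ : ∀ w : S, c.succAbove (g ⟨φ w, hφmem w⟩) = f w.1 := by
    intro w
    rw [hg]
    congr 1
    exact Subtype.ext (hφ w).symm
  let g' : G''.coe.Coloring (Fin k) := SimpleGraph.Coloring.mk g (by
    rintro ⟨u, hu⟩ ⟨v, hv⟩ huv he
    have h1 : G'.Adj (some u) (some v) := huv.1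
    have h2 : G'.coe.Adj ⟨some u, hu.choose⟩ ⟨some v, hv.choose⟩ := h1
    apply f.valid h2
    rw [← hg ⟨u, hu⟩, ← hg ⟨v, hv⟩, he])
  have hxS : ∀ i : Fin k, x (c.succAbove i) ∈ S := by
    intro i
    show f (x (c.succAbove i)) ≠ c
    rw [hx]; exact Fin.succAbove_ne c i
  refine ⟨g', fun i => ⟨φ ⟨x (c.succAbove i), hxS i⟩, hφmem _⟩, ?_, ?_⟩
  · intro i
    have := hgφ ⟨_, hxS i⟩
    rw [hx] at this
    exact Fin.succAbove_right_injective this
  · intro i j hij
    obtain ⟨P, hPp, hPc⟩ := hP (c.succAbove i) (c.succAbove j)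
      (Fin.strictMono_succAbove c hij)
    have hPS : ∀ w ∈ P.support, w ∈ S := by
      intro w hw
      show f w ≠ c
      rcases hPc w hw with h | h
      · rw [h]; exact Fin.succAbove_ne c i
      · rw [h]; exact Fin.succAbove_ne c j
    refine ⟨(P.induce S hPS).map ψ, ?_, ?_⟩
    · refine SimpleGraph.Walk.map_isPath_of_injective hψinj ?_
      have h1 : ((P.induce S hPS).map (SimpleGraph.Embedding.induce S).toHom).IsPath := by
        rw [SimpleGraph.Walk.map_induce]; exact hPp
      exact SimpleGraph.Walk.IsPath.of_map h1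
    · intro w hw
      rw [SimpleGraph.Walk.support_map] at hw
      obtain ⟨y, hy, rfl⟩ := List.mem_map.1 hw
      have hy' : y.1 ∈ P.support := by
        have h1 : y.1 ∈ ((P.induce S hPS).map (SimpleGraph.Embedding.induce S).toHom).support := by
          rw [SimpleGraph.Walk.support_map]
          exact List.mem_map.2 ⟨y, hy, rfl⟩
        rwa [SimpleGraph.Walk.map_induce] at h1
      have h2 := hgφ y
      show g (⟨φ y, hφmem y⟩ : G''.verts) = i ∨ g (⟨φ y, hφmem y⟩ : G''.verts) = j
      rcases hPc _ hy' with h | h
      · left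
        rw [h] at h2
        exact Fin.succAbove_right_injective h2
      · right
        rw [h] at h2
        exact Fin.succAbove_right_injective h2

/-- **Main theorem.** There is a `k₀` such that for every `k ≥ k₀` there is a finite graph with
chromatic number exactly `k` none of whose subgraphs (vertices and edges may be deleted) has a
chromatic `k`-scheme. -/
theorem result : ∃ k₀ : ℕ, 4 ≤ k₀ ∧ ∀ k, k₀ ≤ k →
    ∃ (V : Type) (_ : Fintype V) (G : SimpleGraph V),
      G.chromaticNumber = k ∧ NoScheme G k := by
  obtain ⟨p, hp, V, hV, G, hG, hno⟩ := Pool.Agent.Results.MP_4cad9a_co.SchemesFail.result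
  refine ⟨p, hp, ?_⟩
  intro k hk
  induction k, hk using Nat.le_induction with
  | base =>
    refine ⟨V, hV, G, hG, ?_⟩
    rintro G' ⟨f, x, hx, hP⟩
    apply hno G'
    choose P hPp hPc using hP
    refine ⟨f, x, P, fun a b hab => f.valid hab, ?_, hPp, ?_, ?_, ?_⟩
    · intro i j hij
      rw [← hx i, ← hx j, hij]
    · intro i j k l h h' hik hil hjk hjl w hw hw'
      rcases hPc i j h w hw with h1 | h1 <;> rcases hPc k l h' w hw' with h2 | h2
      · exact hik (h1.symm.trans h2)
      · exact hil (h1.symm.trans h2)
      · exact hjk (h1.symm.trans h2)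
      · exact hjl (h1.symm.trans h2)
    · intro i j hij
      have : f (x i) = f (x j) := hij
      rwa [hx, hx] at this
    · intro i j h w hw
      rw [hx, hx]
      exact hPc i j h w hw
  | succ k hk ih =>
    obtain ⟨V, hV, G, hG, hno⟩ := ih
    exact ⟨Option V, inferInstance, cone G, chromatic_cone G hG, noScheme_cone G hno⟩

end Pool.Agent.Results.MP_ae60c6_co.AllLargeK
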